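import Mathlib
import Pool.Agent.H865.TQ.Spc
import Pool.Graph.R_seed8.H391R2.T4.Sym

/-!
# The semilinear representation of a symmetric fibre power on the sum of copies of a representation
-/

set_option autoImplicit false

namespace Pool.Agent.H865.SP

open MvPolynomial
open Pool.Agent.H865.TQ (Coc IsFaithful)
open Pool.Agent.H391R2 (Wr wr_mul_left wr_mul_right wr_inv_left)
open Pool.Agent.H391R2.T4 (SymEP symProj)

section blk

variable {k L : Type} [Field k] [Field L] [Algebra k L] {G : Type} [Group G]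
  (α : G →* (L ≃ₐ[k] L)) {N : ℕ} (ρ : G → GL (Fin N) L) (n : ℕ)

/-- The index of the variable `s` in the block `i`. -/
def kap (n N : ℕ) (i : Fin n) (s : Fin N) : Fin (n * N) := finProdFinEquiv (i, s)

theorem kap_inj {n N : ℕ} {i j : Fin n} {s t : Fin N} (h : kap n N i s = kap n N j t) :
    i = j ∧ s = t := by
  have h1 := finProdFinEquiv.injective h
  exact ⟨congrArg Prod.fst h1, congrArg Prod.snd h1⟩

theorem kap_surj {n N : ℕ} (a : Fin (n * N)) : ∃ i s, kap n N i s = a :=
  ⟨(finProdFinEquiv.symm a).1, (finProdFinEquiv.symm a).2,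
    finProdFinEquiv.apply_symm_apply a⟩

theorem sum_kap {n N : ℕ} {A : Type} [AddCommMonoid A] (f : Fin (n * N) → A) :
    ∑ a, f a = ∑ i, ∑ s, f (kap n N i s) := by
  rw [← Fintype.sum_prod_type']
  exact (Equiv.sum_comp finProdFinEquiv f).symm

/-- The block matrix. -/
noncomputable def bm (z : SymEP α n) : Matrix (Fin (n * N)) (Fin (n * N)) L :=
  fun a b => if z.1.1.right (finProdFinEquiv.symm b).1 = (finProdFinEquiv.symm a).1 then
    (ρ (z.1.1.left (finProdFinEquiv.symm a).1) : Matrix (Fin N) (Fin N) L)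
      (finProdFinEquiv.symm a).2 (finProdFinEquiv.symm b).2 else 0

theorem bm_kap (z : SymEP α n) (i j : Fin n) (s t : Fin N) :
    bm α ρ n z (kap n N i s) (kap n N j t) =
      if z.1.1.right j = i then (ρ (z.1.1.left i) : Matrix (Fin N) (Fin N) L) s t else 0 := by
  simp only [bm, kap, Equiv.symm_apply_apply]

variable {α ρ}

theorem bm_mul (hρ : Coc α ρ) (z w : SymEP α n) : bm α ρ n (z * w) =
    bm α ρ n z * (bm α ρ n w).map (symProj α n z) := by
  ext a b
  obtain ⟨i, s, rfl⟩ := kap_surj a
  obtain ⟨l, t, rfl⟩ := kap_surj b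
  rw [bm_kap, Matrix.mul_apply, sum_kap]
  have h1 : ∀ j : Fin n, (∑ u, bm α ρ n z (kap n N i s) (kap n N j u) *
      (bm α ρ n w).map (symProj α n z) (kap n N j u) (kap n N l t)) =
      if z.1.1.right j = i then
        (if w.1.1.right l = j then ∑ u, (ρ (z.1.1.left i) : Matrix (Fin N) (Fin N) L) s u *
          (symProj α n z) ((ρ (w.1.1.left j) : Matrix (Fin N) (Fin N) L) u t) else 0) else 0 := by
    intro j
    simp only [Matrix.map_apply, bm_kap]
    split_ifs with h2 h3
    · rfl
    · simp only [map_zero, mul_zero, Finset.sum_const_zero]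
    · exact Finset.sum_eq_zero fun _ _ => zero_mul _
    · exact Finset.sum_eq_zero fun _ _ => zero_mul _
  rw [Finset.sum_congr rfl fun j _ => h1 j]
  rw [Finset.sum_eq_single (w.1.1.right l)]
  · rw [if_pos (rfl : w.1.1.right l = w.1.1.right l)]
    have h2 : (z * w).1.1.right l = z.1.1.right (w.1.1.right l) := rfl
    rw [h2]
    split_ifs with h3
    · have h4 : (z * w).1.1.left i = z.1.1.left i * w.1.1.left (w.1.1.right l) := by
        change (z.1.1 * w.1.1).left i = _
        rw [wr_mul_left, ← h3]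
        have h6 : z.1.1.right⁻¹ (z.1.1.right (w.1.1.right l)) = w.1.1.right l :=
          Equiv.symm_apply_apply _ _
        rw [h6]
      have h5 : α (z.1.1.left i) = symProj α n z := z.2 i
      rw [h4, hρ, Matrix.mul_apply, h5]
      rfl
    · rfl
  · intro j _ hj
    rw [if_neg (Ne.symm hj), ite_self]
  · intro h
    exact absurd (Finset.mem_univ _) h

theorem bm_one (hρ : Coc α ρ) : bm α ρ n 1 = 1 := by
  ext a b
  obtain ⟨i, s, rfl⟩ := kap_surj a
  obtain ⟨j, t, rfl⟩ := kap_surj b
  rw [bm_kap]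
  have h1 : ((1 : SymEP α n) : Wr G n × (L ≃ₐ[k] L)).1.right j = j := rfl
  have h2 : ((1 : SymEP α n) : Wr G n × (L ≃ₐ[k] L)).1.left i = 1 := rfl
  rw [h1, h2, hρ.one]
  split_ifs with h3
  · subst h3
    by_cases h4 : s = t
    · subst h4
      rw [Matrix.one_apply_eq, Matrix.one_apply_eq]
    · rw [Matrix.one_apply_ne h4, Matrix.one_apply_ne fun h5 => h4 (kap_inj h5).2]
  · rw [Matrix.one_apply_ne fun h5 => h3 (kap_inj h5).1.symm]

/-- The representation of the symmetric fibre power. -/
noncomputable def rn (hρ : Coc α ρ) (z : SymEP α n) : GL (Fin (n * N)) L where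
  val := bm α ρ n z
  inv := (bm α ρ n z⁻¹).map (symProj α n z)
  val_inv := by
    rw [← bm_mul n hρ, mul_inv_cancel, bm_one n hρ]
  inv_val := by
    apply mul_eq_one_comm.1
    rw [← bm_mul n hρ, mul_inv_cancel, bm_one n hρ]

theorem rn_val (hρ : Coc α ρ) (z : SymEP α n) :
    (rn n hρ z : Matrix (Fin (n * N)) (Fin (n * N)) L) = bm α ρ n z := rfl

theorem coc_rn (hρ : Coc α ρ) : Coc (symProj α n) (rn n hρ) := fun z w => bm_mul n hρ z w

theorem faithful_rn (hρ : Coc α ρ) (hf : IsFaithful α ρ) (hN : 0 < N) :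
    IsFaithful (symProj α n) (rn n hρ) := by
  intro z hz h1
  have h2 : bm α ρ n z = 1 := congrArg Units.val h1
  have hr : z.1.1.right = 1 := by
    apply Equiv.ext
    intro j
    by_contra h3
    have h3' : ¬ z.1.1.right j = j := h3
    have h4 := congrFun (congrFun h2 (kap n N j ⟨0, hN⟩)) (kap n N j ⟨0, hN⟩)
    rw [bm_kap, if_neg h3', Matrix.one_apply_eq] at h4
    exact zero_ne_one h4
  have hl : ∀ i, z.1.1.left i = 1 := by
    intro i
    apply hf
    · have h3 : α (z.1.1.left i) = symProj α n z := z.2 i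
      rw [h3, hz]
    · apply Units.ext
      ext s t
      have h4 := congrFun (congrFun h2 (kap n N i s)) (kap n N i t)
      have h5 : z.1.1.right i = i := by rw [hr]; rfl
      rw [bm_kap, if_pos h5] at h4
      rw [h4, Units.val_one]
      by_cases h6 : s = t
      · subst h6
        rw [Matrix.one_apply_eq, Matrix.one_apply_eq]
      · rw [Matrix.one_apply_ne h6, Matrix.one_apply_ne fun h7 => h6 (kap_inj h7).2]
  apply Subtype.ext
  apply Prod.ext
  · apply SemidirectProduct.ext
    · funext i
      exact hl i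
    · exact hr
  · exact hz

end blk

end Pool.Agent.H865.SP
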