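import Mathlib
import Pool.Agent.H865.TQ.Defs

/-!
# Symmetric powers: the definitions
-/

set_option autoImplicit false

open AlgebraicGeometry CategoryTheory
open W560.HP (toFF)

namespace Pool.Agent.H865.SP

/-- `Z` is a model of the `n`-th symmetric power of `X` over `k`: the function field of `Z` is the
field of the symmetric elements of the field of fractions `E` of the `n`-th tensor power over `k`
of the function field `F` of `X`.

Here `e i : F → E` are the `n` embeddings of `F`. That `E` is the field of fractions of the tensor
power means that the products `e_1(a_1) ⋯ e_n(a_n)` of elements of a linearly independent family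
are linearly independent over `k`, and that the field `E` is generated by the images of the
`e i`. The elements of the function field of `Z` are the elements of `E` fixed by all
automorphisms of `E` which permute the embeddings. -/
def IsSymmetricPower (k : Type) [Field k] (n : ℕ) (X : Scheme.{0}) [IsIntegral X]
    (p : X ⟶ Spec (CommRingCat.of k)) (Z : Scheme.{0}) [IsIntegral Z]
    (q : Z ⟶ Spec (CommRingCat.of k)) : Prop :=
  letI : Algebra k X.functionField := (toFF k X p).toAlgebra
  letI : Algebra k Z.functionField := (toFF k Z q).toAlgebra
  ∃ (E : Type) (_ : Field E) (_ : Algebra k E) (e : Fin n → X.functionField →ₐ[k] E)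
    (j : Z.functionField →ₐ[k] E),
    (∀ (ι : Type) (a : ι → X.functionField), LinearIndependent k a →
      LinearIndependent k fun f : Fin n → ι => ∏ i, e i (a (f i))) ∧
    IntermediateField.adjoin k (⋃ i, Set.range (e i)) = ⊤ ∧
    ∀ z : E, z ∈ Set.range j ↔ ∀ (π : Equiv.Perm (Fin n)) (σ : E ≃ₐ[k] E),
      (∀ i x, σ (e i x) = e (π i) x) → σ z = z

section problems

variable (k L G : Type) [Field k] [Field L] [Algebra k L] [Group G] (α : G →* (L ≃ₐ[k] L))

/-- The embedding problem `α` over `k` has a weak solution over the extension `k'` of `k`: there
are an extension `M` of `L` and `k'`, finite Galois over `k'`, and a homomorphism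
`s : Gal(M/k') → G` such that `σ` acts on `L` as `α(s(σ))`. -/
def WeaklySolvableOver (k' : Type) [Field k'] [Algebra k k'] : Prop :=
  ∃ (M : Type) (_ : Field M) (_ : Algebra k' M) (_ : Algebra L M) (_ : Algebra k M)
    (_ : IsScalarTower k k' M) (_ : IsScalarTower k L M) (_ : FiniteDimensional k' M)
    (_ : IsGalois k' M) (s : (M ≃ₐ[k'] M) →* G),
    ∀ (σ : M ≃ₐ[k'] M) (x : L), σ (algebraMap L M x) = algebraMap L M (α (s σ) x)

/-- The index of `α`, which is the greatest common divisor of the degrees `[k' : k]` of the finite
extensions `k'` of `k` over which `α` has a weak solution, divides `n`. -/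
def IndexDivides (n : ℕ) : Prop :=
  ∀ d : ℕ, (∀ (k' : Type) [Field k'] [Algebra k k'] [FiniteDimensional k k'],
    WeaklySolvableOver k L G α k' → d ∣ Module.finrank k k') → d ∣ n

end problems

end Pool.Agent.H865.SP
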