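import Mathlib
import Pool.Agent.H865.SP.Blk

/-!
# The embeddings of the field of rational functions in the blocks
-/

set_option autoImplicit false

namespace Pool.Agent.H865.SP

open MvPolynomial
open Pool.Agent.H865.TQ (Coc IsFaithful ag ag_apply TInv mem_TInv')
open Pool.Agent.K3h17.HQ (ls ls_X FR U U_alg U_U U_one U_congr Mf Mf_alg FR_ext)
open Pool.Agent.H391R2 (Wr wr_mul_left wr_mul_right wr_inv_left)
open Pool.Agent.H391R2.T4 (SymEP symProj)

section eps

variable {L : Type} [Field L] {n N : ℕ}

theorem kap_injective (i : Fin n) : Function.Injective (kap n N i) := fun _ _ h => (kap_inj h).2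

/-- The embedding of the rational functions of the block `i`. -/
noncomputable def eps (L : Type) [Field L] (n N : ℕ) (i : Fin n) : FR N L →+* FR (n * N) L :=
  IsFractionRing.map (A := MvPolynomial (Fin N) L) (B := MvPolynomial (Fin (n * N)) L)
    (j := (rename (kap n N i) : MvPolynomial (Fin N) L →ₐ[L] MvPolynomial (Fin (n * N)) L).toRingHom)
    (rename_injective _ (kap_injective i))

theorem eps_alg (i : Fin n) (p : MvPolynomial (Fin N) L) :
    eps L n N i (algebraMap _ (FR N L) p) =
      algebraMap _ (FR (n * N) L) (rename (kap n N i) p) := by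
  delta eps IsFractionRing.map
  exact IsLocalization.map_eq _ p

theorem eps_C (i : Fin n) (a : L) :
    eps L n N i (algebraMap (MvPolynomial (Fin N) L) (FR N L) (C a)) =
      algebraMap (MvPolynomial (Fin (n * N)) L) (FR (n * N) L) (C a) := by
  rw [eps_alg, rename_C]

theorem alg_FR (L : Type) [Field L] (N : ℕ) (a : L) :
    algebraMap L (FR N L) a = algebraMap (MvPolynomial (Fin N) L) (FR N L) (C a) := by
  rw [IsScalarTower.algebraMap_apply L (MvPolynomial (Fin N) L) (FR N L)]
  rfl

theorem eps_L (i : Fin n) (a : L) : eps L n N i (algebraMap L (FR N L) a) =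
    algebraMap L (FR (n * N) L) a := by
  rw [alg_FR, alg_FR, eps_C]

theorem alg_FRk (k : Type) [Field k] [Algebra k L] (N : ℕ) (a : k) :
    algebraMap k (FR N L) a = algebraMap L (FR N L) (algebraMap k L a) := by
  rw [alg_FR, IsScalarTower.algebraMap_apply k (MvPolynomial (Fin N) L) (FR N L)]
  rfl

theorem eps_k (k : Type) [Field k] [Algebra k L] (i : Fin n) (a : k) :
    eps L n N i (algebraMap k (FR N L) a) = algebraMap k (FR (n * N) L) a := by
  rw [alg_FRk k N, alg_FRk k (n * N), eps_L]

/-- The blocks generate. -/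
theorem eps_gen (hn : 0 < n) (S : Subfield (FR (n * N) L))
    (hS : ∀ i z, eps L n N i z ∈ S) : S = ⊤ := by
  rw [eq_top_iff]
  rintro z -
  obtain ⟨a, d, -, rfl⟩ := IsFractionRing.div_surjective (A := MvPolynomial (Fin (n * N)) L) z
  have hmem : ∀ a : MvPolynomial (Fin (n * N)) L,
      algebraMap (MvPolynomial (Fin (n * N)) L) (FR (n * N) L) a ∈ S := by
    intro a
    induction a using MvPolynomial.induction_on with
    | C a =>
      rw [← eps_C (⟨0, hn⟩ : Fin n) a]
      exact hS _ _
    | add p q hp hq =>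
      rw [map_add]
      exact add_mem hp hq
    | mul_X p a hp =>
      rw [map_mul]
      refine mul_mem hp ?_
      obtain ⟨i, s, rfl⟩ := kap_surj a
      have h1 : (X (kap n N i s) : MvPolynomial (Fin (n * N)) L) =
          rename (kap n N i) (X s : MvPolynomial (Fin N) L) := (rename_X _ _).symm
      rw [h1, ← eps_alg]
      exact hS _ _
  exact div_mem (hmem a) (hmem d)

theorem Mf_eps (f : L →+* L) (i : Fin n) (z : FR N L) :
    Mf (n * N) f (eps L n N i z) = eps L n N i (Mf N f z) := by
  refine FR_ext (f := (Mf (n * N) f).comp (eps L n N i)) (g := (eps L n N i).comp (Mf N f))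
    (fun p => ?_) z
  rw [RingHom.comp_apply, RingHom.comp_apply, eps_alg, Mf_alg, Mf_alg, eps_alg,
    MvPolynomial.map_rename]

end eps

section act

variable {k L : Type} [Field k] [Field L] [Algebra k L] {G : Type} [Group G]
  {α : G →* (L ≃ₐ[k] L)} {N : ℕ} {ρ : G → GL (Fin N) L} {n : ℕ}

theorem ls_bm (z : SymEP α n) (j : Fin n) (q : MvPolynomial (Fin N) L) :
    ls (bm α ρ n z) (rename (kap n N (z.1.1.right j)) q) =
      rename (kap n N j) (ls (ρ (z.1.1.left (z.1.1.right j)) : Matrix (Fin N) (Fin N) L) q) := by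
  have h : (ls (bm α ρ n z)).comp (rename (kap n N (z.1.1.right j))) =
      (rename (kap n N j)).comp
        (ls (ρ (z.1.1.left (z.1.1.right j)) : Matrix (Fin N) (Fin N) L)) := by
    apply MvPolynomial.algHom_ext
    intro s
    rw [AlgHom.comp_apply, AlgHom.comp_apply, rename_X, ls_X, ls_X, map_sum, sum_kap]
    rw [Finset.sum_eq_single j]
    · refine Finset.sum_congr rfl fun t _ => ?_
      rw [bm_kap, if_pos rfl, map_mul, rename_C, rename_X]
    · intro l _ hl
      refine Finset.sum_eq_zero fun t _ => ?_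
      rw [bm_kap, if_neg fun h1 => hl (z.1.1.right.injective h1), map_zero, zero_mul]
    · intro h1
      exact absurd (Finset.mem_univ _) h1
  exact congrArg (fun f : MvPolynomial (Fin N) L →ₐ[L] MvPolynomial (Fin (n * N)) L => f q) h

theorem U_eps (hρ : Coc α ρ) (z : SymEP α n) (j : Fin n) (u : FR N L) :
    U (Units.isUnit (rn n hρ z)) (eps L n N (z.1.1.right j) u) =
      eps L n N j (U (Units.isUnit (ρ (z.1.1.left (z.1.1.right j)))) u) := by
  refine FR_ext (f := (U (Units.isUnit (rn n hρ z))).comp (eps L n N (z.1.1.right j)))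
    (g := (eps L n N j).comp (U (Units.isUnit (ρ (z.1.1.left (z.1.1.right j))))))
    (fun p => ?_) u
  rw [RingHom.comp_apply, RingHom.comp_apply, eps_alg, U_alg, U_alg, eps_alg, rn_val, ls_bm]

/-- The action permutes the blocks. -/
theorem ag_eps (hρ : Coc α ρ) (z : SymEP α n) (j : Fin n) (u : FR N L) :
    ag (symProj α n) (rn n hρ) z (eps L n N j u) =
      eps L n N (z.1.1.right j) (ag α ρ (z.1.1.left (z.1.1.right j)) u) := by
  have h1 : α (z.1.1.left (z.1.1.right j)) = symProj α n z := z.2 _
  set x := z.1.1.left (z.1.1.right j) with hx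
  have h2 := U_eps hρ z j (ag α ρ x u)
  rw [← hx, ag_apply, U_U (Units.isUnit ((ρ x)⁻¹)) (Units.isUnit (ρ x))
    ((Units.isUnit ((ρ x)⁻¹)).mul (Units.isUnit (ρ x))),
    U_congr _ (Units.inv_mul (ρ x)) isUnit_one, U_one] at h2
  rw [ag_apply, Mf_eps, ← h1, ← h2, ag_apply]
  rw [U_U (Units.isUnit (rn n hρ z)) (Units.isUnit ((rn n hρ z)⁻¹))
    ((Units.isUnit (rn n hρ z)).mul (Units.isUnit ((rn n hρ z)⁻¹))),
    U_congr _ (Units.mul_inv (rn n hρ z)) isUnit_one, U_one]

end act

end Pool.Agent.H865.SP
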