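import Mathlib
import Pool.Agent.H865.SP.Eps

/-!
# Linear independence of the products of invariants of different blocks
-/

set_option autoImplicit false

namespace Pool.Agent.H865.SP

open MvPolynomial
open Pool.Agent.H865.TQ (Coc IsFaithful ag ag_alg act_C TInv mem_TInv')
open Pool.Agent.K3h17.HQ (FR)

section functional

variable {L : Type} [Field L] {n N : ℕ}

theorem exists_functional (lam : Fin n → (MvPolynomial (Fin N) L →ₗ[L] L)) :
    ∃ Λ : MvPolynomial (Fin (n * N)) L →ₗ[L] L, ∀ q : Fin n → MvPolynomial (Fin N) L,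
      Λ (∏ i, rename (kap n N i) (q i)) = ∏ i, lam i (q i) := by
  classical
  let Λ : MvPolynomial (Fin (n * N)) L →ₗ[L] L :=
    (basisMonomials (Fin (n * N)) L).constr L fun m =>
      ∏ i, lam i (monomial (m.comapDomain (kap n N i) (kap_injective i).injOn) 1)
  have hΛ : ∀ m : Fin (n * N) →₀ ℕ, Λ (monomial m 1) =
      ∏ i, lam i (monomial (m.comapDomain (kap n N i) (kap_injective i).injOn) 1) := by
    intro m
    have h1 := (basisMonomials (Fin (n * N)) L).constr_basis L (fun m =>
      ∏ i, lam i (monomial (m.comapDomain (kap n N i) (kap_injective i).injOn) 1)) m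
    rwa [coe_basisMonomials] at h1
  let f : MultilinearMap L (fun _ : Fin n => MvPolynomial (Fin N) L) L :=
    Λ.compMultilinearMap ((MultilinearMap.mkPiAlgebra L (Fin n)
      (MvPolynomial (Fin (n * N)) L)).compLinearMap fun i => (rename (kap n N i)).toLinearMap)
  let g : MultilinearMap L (fun _ : Fin n => MvPolynomial (Fin N) L) L :=
    (MultilinearMap.mkPiAlgebra L (Fin n) L).compLinearMap lam
  have hfg : f = g := by
    refine Module.Basis.ext_multilinear (fun _ => basisMonomials (Fin N) L) fun v => ?_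
    change Λ (∏ i, rename (kap n N i) (basisMonomials (Fin N) L (v i))) =
      ∏ i, lam i (basisMonomials (Fin N) L (v i))
    simp only [coe_basisMonomials, rename_monomial]
    have h1 : (∏ i, monomial (Finsupp.mapDomain (kap n N i) (v i)) (1 : L)) =
        monomial (∑ i, Finsupp.mapDomain (kap n N i) (v i)) 1 := by
      rw [monomial_sum_index]
      simp only [C_1, one_mul]
    rw [h1, hΛ]
    refine Finset.prod_congr rfl fun j _ => congrArg (fun m => lam j (monomial m 1)) ?_
    ext s
    rw [Finsupp.comapDomain_apply, Finsupp.finsetSum_apply, Finset.sum_eq_single j]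
    · exact Finsupp.mapDomain_apply (kap_injective j) _ _
    · intro i _ hi
      apply Finsupp.mapDomain_notin_range
      rintro ⟨t, ht⟩
      exact hi (kap_inj ht).1
    · intro h
      exact absurd (Finset.mem_univ _) h
  exact ⟨Λ, fun q => congrArg (fun h => h q) hfg⟩

theorem exists_dual {V : Type} [AddCommGroup V] [Module L V] {ι : Type} (v : ι → V)
    (hv : LinearIndependent L v) : ∃ δ : ι → (V →ₗ[L] L), (∀ t, δ t (v t) = 1) ∧
      ∀ t t', t ≠ t' → δ t (v t') = 0 := by
  classical
  have h1 : ∀ t : ι, ∃ g : V →ₗ[L] L, g.comp (Submodule.span L (Set.range v)).subtype =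
      (Finsupp.lapply t).comp (hv.repr : Submodule.span L (Set.range v) →ₗ[L] ι →₀ L) :=
    fun t => LinearMap.exists_extend _
  choose δ hδ using h1
  have h2 : ∀ t t', δ t (v t') = hv.repr ⟨v t', Submodule.subset_span ⟨t', rfl⟩⟩ t := by
    intro t t'
    have h3 := congrArg (fun h : Submodule.span L (Set.range v) →ₗ[L] L =>
      h ⟨v t', Submodule.subset_span ⟨t', rfl⟩⟩) (hδ t)
    exact h3
  refine ⟨δ, fun t => ?_, fun t t' h => ?_⟩
  · rw [h2, hv.repr_eq_single t _ rfl, Finsupp.single_eq_same]
  · rw [h2, hv.repr_eq_single t' _ rfl, Finsupp.single_eq_of_ne h]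

theorem lin_eps {ι : Type} (a : ι → FR N L) (ha : LinearIndependent L a) :
    LinearIndependent L fun f : Fin n → ι => ∏ i, eps L n N i (a (f i)) := by
  classical
  rw [linearIndependent_iff']
  intro s g hg f₀ hf₀
  let T : Finset ι := s.biUnion fun f => Finset.univ.image f
  have hT : ∀ f ∈ s, ∀ i, f i ∈ T := fun f hf i =>
    Finset.mem_biUnion.2 ⟨f, hf, Finset.mem_image_of_mem f (Finset.mem_univ i)⟩
  obtain ⟨b, hb⟩ := IsLocalization.exist_integer_multiples_of_finset
    (nonZeroDivisors (MvPolynomial (Fin N) L)) (T.image a)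
  let b' : FR N L := algebraMap (MvPolynomial (Fin N) L) (FR N L) (b : MvPolynomial (Fin N) L)
  have hb0 : b' ≠ 0 := by
    intro h
    exact nonZeroDivisors.ne_zero b.2
      ((map_eq_zero_iff _ (IsFractionRing.injective (MvPolynomial (Fin N) L) (FR N L))).1 h)
  have h1 : ∀ t : T, ∃ p : MvPolynomial (Fin N) L,
      algebraMap (MvPolynomial (Fin N) L) (FR N L) p = b' * a t := by
    intro t
    obtain ⟨p, hp⟩ := hb (a t) (Finset.mem_image_of_mem a t.2)
    exact ⟨p, hp.trans (Algebra.smul_def _ _)⟩
  choose p hp using h1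
  have hlin : LinearIndependent L p := by
    apply LinearIndependent.of_comp
      (IsScalarTower.toAlgHom L (MvPolynomial (Fin N) L) (FR N L)).toLinearMap
    have h2 : (IsScalarTower.toAlgHom L (MvPolynomial (Fin N) L) (FR N L)).toLinearMap ∘ p =
        (LinearMap.mulLeft L b') ∘ (fun t : T => a t) := by
      funext t
      exact hp t
    rw [h2]
    refine (ha.comp _ Subtype.val_injective).map' _ ?_
    rw [LinearMap.ker_eq_bot]
    exact mul_right_injective₀ hb0
  obtain ⟨δ, hδ1, hδ2⟩ := exists_dual p hlin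
  obtain ⟨Λ, hΛ⟩ := exists_functional (n := n) fun i => δ ⟨f₀ i, hT f₀ hf₀ i⟩
  let P : (Fin n → ι) → MvPolynomial (Fin (n * N)) L := fun f =>
    if h : ∀ i, f i ∈ T then ∏ i, rename (kap n N i) (p ⟨f i, h i⟩) else 0
  have hP : ∀ f ∈ s, algebraMap (MvPolynomial (Fin (n * N)) L) (FR (n * N) L) (P f) =
      (∏ i, eps L n N i b') * ∏ i, eps L n N i (a (f i)) := by
    intro f hf
    have h2 : P f = ∏ i, rename (kap n N i) (p ⟨f i, hT f hf i⟩) := dif_pos (hT f hf)
    rw [h2, map_prod, ← Finset.prod_mul_distrib]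
    refine Finset.prod_congr rfl fun i _ => ?_
    rw [← eps_alg, hp, map_mul]
  have hrel : ∑ f ∈ s, C (g f) * P f = 0 := by
    apply IsFractionRing.injective (MvPolynomial (Fin (n * N)) L) (FR (n * N) L)
    rw [map_zero, map_sum]
    have h2 : ∀ f ∈ s, algebraMap (MvPolynomial (Fin (n * N)) L) (FR (n * N) L)
        (C (g f) * P f) = (∏ i, eps L n N i b') * (g f • ∏ i, eps L n N i (a (f i))) := by
      intro f hf
      rw [map_mul, hP f hf, ← alg_FR, Algebra.smul_def]
      ring
    rw [Finset.sum_congr rfl h2, ← Finset.mul_sum, hg, mul_zero]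
  have h3 := congrArg Λ hrel
  rw [map_zero, map_sum, Finset.sum_eq_single f₀] at h3
  · have h4 : P f₀ = ∏ i, rename (kap n N i) (p ⟨f₀ i, hT f₀ hf₀ i⟩) := dif_pos (hT f₀ hf₀)
    rw [← MvPolynomial.smul_eq_C_mul, map_smul, h4, hΛ] at h3
    rw [Finset.prod_eq_one fun i _ => hδ1 _, smul_eq_mul, mul_one] at h3
    exact h3
  · intro f hf hne
    have h4 : P f = ∏ i, rename (kap n N i) (p ⟨f i, hT f hf i⟩) := dif_pos (hT f hf)
    obtain ⟨i, hi⟩ := Function.ne_iff.1 hne
    rw [← MvPolynomial.smul_eq_C_mul, map_smul, h4, hΛ]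
    rw [Finset.prod_eq_zero (Finset.mem_univ i) (hδ2 _ _ fun h5 =>
      hi (congrArg Subtype.val h5).symm), smul_zero]
  · intro h
    exact absurd hf₀ h

end functional

section descent

variable {k L : Type} [Field k] [CharZero k] [Field L] [Algebra k L] [FiniteDimensional k L]
  [IsGalois k L] {G : Type} [Group G] [Finite G]
  {α : G →* (L ≃ₐ[k] L)} {N : ℕ} {ρ : G → GL (Fin N) L} {n : ℕ}

/-- Invariants that are linearly independent over `k` are linearly independent over `L`. -/
theorem lin_L (hα : Function.Surjective α) {ι : Type} (a : ι → TInv α ρ)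
    (ha : LinearIndependent k a) : LinearIndependent L fun i => (a i : FR N L) := by
  classical
  have := Fintype.ofFinite G
  have hL : CharZero L := charZero_of_injective_algebraMap (algebraMap k L).injective
  let t : L → L := fun c => ∑ g : G, α g c
  have ht : ∀ c, ∃ r : k, algebraMap k L r = t c := by
    intro c
    apply (IsGalois.mem_range_algebraMap_iff_fixed (F := k) (E := L) (t c)).2
    intro f
    obtain ⟨h, rfl⟩ := hα f
    change α h (∑ g : G, α g c) = ∑ g : G, α g c
    rw [map_sum]
    refine Fintype.sum_equiv (Equiv.mulLeft h) _ _ fun g => ?_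
    change _ = α (h * g) c
    rw [map_mul]
    rfl
  choose r hr using ht
  rw [linearIndependent_iff']
  intro s c hc i hi
  by_contra h0
  have h1 : ∀ g : G, ∑ j ∈ s, algebraMap L (FR N L) (α g ((c i)⁻¹ * c j)) * (a j : FR N L) = 0 := by
    intro g
    have h2 : ∑ j ∈ s, algebraMap L (FR N L) ((c i)⁻¹ * c j) * (a j : FR N L) = 0 := by
      have h3 := congrArg (fun z => algebraMap L (FR N L) (c i)⁻¹ * z) hc
      simp only [mul_zero, Finset.mul_sum, Algebra.smul_def] at h3
      rw [← h3]
      refine Finset.sum_congr rfl fun j _ => ?_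
      rw [map_mul, mul_assoc]
    have h3 := congrArg (ag α ρ g) h2
    rw [map_zero, map_sum] at h3
    rw [← h3]
    refine Finset.sum_congr rfl fun j _ => ?_
    rw [RingHom.map_mul (ag α ρ g), (mem_TInv' (a j : FR N L)).1 (a j).2 g, alg_FR, alg_FR,
      ag_alg, act_C]
  have h2 : ∑ j ∈ s, r ((c i)⁻¹ * c j) • a j = 0 := by
    apply Subtype.ext
    have h3 : (∑ g : G, ∑ j ∈ s, algebraMap L (FR N L) (α g ((c i)⁻¹ * c j)) *
        (a j : FR N L)) = 0 := Finset.sum_eq_zero fun g _ => h1 g
    rw [Finset.sum_comm] at h3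
    rw [ZeroMemClass.coe_zero, ← h3, AddSubmonoidClass.coe_finsetSum]
    refine Finset.sum_congr rfl fun j _ => ?_
    rw [← Finset.sum_mul, ← map_sum]
    change (r ((c i)⁻¹ * c j) • a j : TInv α ρ).1 = algebraMap L (FR N L) (t ((c i)⁻¹ * c j)) * _
    rw [← hr, ← alg_FRk]
    exact Algebra.smul_def _ _
  have h3 := (linearIndependent_iff'.1 ha) s _ h2 i hi
  have h4 : t ((c i)⁻¹ * c i) = 0 := by
    rw [← hr, h3, map_zero]
  rw [inv_mul_cancel₀ h0] at h4
  have h5 : t 1 = (Fintype.card G : L) := by
    change ∑ g : G, α g 1 = _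
    simp only [map_one, Finset.sum_const, Finset.card_univ, nsmul_eq_mul, mul_one]
  rw [h5] at h4
  exact (Nat.cast_ne_zero.2 Fintype.card_ne_zero) h4

/-- The products are linearly independent over `k`. -/
theorem lin_k (hα : Function.Surjective α) {ι : Type} (a : ι → TInv α ρ)
    (ha : LinearIndependent k a) :
    LinearIndependent k fun f : Fin n → ι => ∏ i, eps L n N i (a (f i) : FR N L) := by
  have h1 := lin_eps (n := n) _ (lin_L hα a ha)
  have h2 : IsScalarTower k L (FR (n * N) L) := IsScalarTower.of_algebraMap_eq fun x => by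
    rw [alg_FRk]
  refine LinearIndependent.restrict_scalars (R := k) (K := L) ?_ h1
  intro x y hxy
  simp only [Algebra.smul_def, mul_one] at hxy
  exact (algebraMap k L).injective hxy

end descent

end Pool.Agent.H865.SP
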