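import Mathlib
import Pool.Agent.H865.SP.Lin

/-!
# The fixed field of the symmetric fibre power
-/

set_option autoImplicit false

namespace Pool.Agent.H865.SP

open MvPolynomial
open Pool.Agent.H865.TQ (Coc IsFaithful ag ag_alg act_C act_one act_mul TInv mem_TInv')
open Pool.Agent.K3h17.HQ (FR FR_ext)
open Pool.Agent.H391R2 (Wr wr_mul_left wr_mul_right wr_inv_left)
open Pool.Agent.H391R2.T4 (SymEP symProj)

section one

variable {k L : Type} [Field k] [Field L] [Algebra k L] {G : Type} [Group G]
  {α : G →* (L ≃ₐ[k] L)} {N : ℕ} {ρ : G → GL (Fin N) L}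

theorem ag_one (hρ : Coc α ρ) (z : FR N L) : ag α ρ 1 z = z := by
  refine FR_ext (f := ag α ρ 1) (g := RingHom.id _) (fun p => ?_) z
  rw [ag_alg, act_one hρ]
  rfl

theorem ag_mul (hρ : Coc α ρ) (g h : G) (z : FR N L) :
    ag α ρ (g * h) z = ag α ρ g (ag α ρ h z) := by
  refine FR_ext (f := ag α ρ (g * h)) (g := (ag α ρ g).comp (ag α ρ h)) (fun p => ?_) z
  rw [RingHom.comp_apply, ag_alg, ag_alg, ag_alg, act_mul hρ]

/-- The action of `G` on the rational functions. -/
@[reducible] noncomputable def agAct (hρ : Coc α ρ) : MulSemiringAction G (FR N L) where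
  smul g z := ag α ρ g z
  one_smul := ag_one hρ
  mul_smul := ag_mul hρ
  smul_zero g := map_zero (ag α ρ g)
  smul_add g := map_add (ag α ρ g)
  smul_one g := map_one (ag α ρ g)
  smul_mul g := map_mul (ag α ρ g)

/-- Two embeddings that agree on the invariants differ by an element of the group. -/
theorem exists_g [Finite G] (hρ : Coc α ρ) {M : Type} [Field M] (f g : FR N L →+* M)
    (hfg : ∀ u ∈ TInv α ρ, f u = g u) : ∃ h : G, ∀ u, f u = g (ag α ρ h u) := by
  let _ : MulSemiringAction G (FR N L) := agAct hρ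
  let F' := FixedPoints.subfield G (FR N L)
  let _ : Algebra (FR N L) M := g.toAlgebra
  let f' : FR N L →ₐ[F'] M :=
    { f with commutes' := fun r => hfg _ ((mem_TInv' (r : FR N L)).2 fun h => r.2 h) }
  obtain ⟨h, hh⟩ := FixedPoints.toAlgAut_surjective G (FR N L)
    (Normal.algHomEquivAut F' M (FR N L) f')
  refine ⟨h, fun u => ?_⟩
  have h1 := congrArg (fun φ : FR N L →ₐ[F'] M => φ u)
    ((Normal.algHomEquivAut F' M (FR N L)).symm_apply_apply f')
  rw [← hh] at h1
  exact h1.symm

end one

section all

variable {k L : Type} [Field k] [CharZero k] [Field L] [Algebra k L] {G : Type} [Group G]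
  [Finite G] {α : G →* (L ≃ₐ[k] L)} {N : ℕ} {ρ : G → GL (Fin N) L} {n : ℕ}

theorem isGalois_gen (hρ : Coc α ρ) (hn : 0 < n) (K' : IntermediateField k (FR (n * N) L))
    (hK' : ∀ i, ∀ u ∈ TInv α ρ, eps L n N i u ∈ K') : IsGalois K' (FR (n * N) L) := by
  let _ : MulSemiringAction G (FR N L) := agAct hρ
  let F' := FixedPoints.subfield G (FR N L)
  have hF : ∀ r : F', (r : FR N L) ∈ TInv α ρ := fun r => (mem_TInv' (r : FR N L)).2 fun h => r.2 h
  let ψ : Fin n → (F' →+* K') := fun i =>
    ((eps L n N i).comp F'.subtype).codRestrict K' fun r => hK' i _ (hF r)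
  let S : Set (FR (n * N) L) := ⋃ i, Set.range (eps L n N i)
  have hS : ∀ x ∈ S, IsIntegral K' x ∧
      ((minpoly K' x).map (algebraMap K' (FR (n * N) L))).Splits := by
    intro x hx
    obtain ⟨i, u, rfl⟩ := Set.mem_iUnion.1 hx
    have hu : IsIntegral F' u := FixedPoints.isIntegral G (FR N L) u
    let P : Polynomial K' := (minpoly F' u).map (ψ i)
    have hP : P.Monic := (minpoly.monic hu).map _
    have hmap : P.map (algebraMap K' (FR (n * N) L)) =
        ((minpoly F' u).map (algebraMap F' (FR N L))).map (eps L n N i) := by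
      rw [Polynomial.map_map, Polynomial.map_map]
      rfl
    have hroot : Polynomial.aeval (eps L n N i u) P = 0 := by
      rw [Polynomial.aeval_def, ← Polynomial.eval_map, hmap, Polynomial.eval_map,
        Polynomial.eval₂_at_apply, Polynomial.eval_map, ← Polynomial.aeval_def, minpoly.aeval,
        map_zero]
    refine ⟨⟨P, hP, hroot⟩, ?_⟩
    refine Polynomial.Splits.of_dvd (g := P.map (algebraMap K' (FR (n * N) L))) ?_ ?_ ?_
    · rw [hmap]
      exact (Normal.splits (FixedPoints.normal G (FR N L)) u).map _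
    · exact (hP.map _).ne_zero
    · exact Polynomial.map_dvd _ (minpoly.dvd K' _ hroot)
  have htop : IntermediateField.adjoin K' S = ⊤ := by
    have h1 : (IntermediateField.adjoin K' S).toSubfield = ⊤ :=
      eps_gen hn _ fun i z => IntermediateField.subset_adjoin K' S (Set.mem_iUnion.2 ⟨i, z, rfl⟩)
    rw [eq_top_iff]
    intro z _
    have h2 : z ∈ (IntermediateField.adjoin K' S).toSubfield := by rw [h1]; trivial
    exact h2
  have hint : ∀ x : FR (n * N) L, IsIntegral K' x := by
    have h1 := IntermediateField.isAlgebraic_adjoin fun x hx => (hS x hx).1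
    intro x
    have h2 : x ∈ IntermediateField.adjoin K' S := by rw [htop]; trivial
    have h3 := (h1.isAlgebraic ⟨x, h2⟩).isIntegral
    exact h3.map (IntermediateField.val _)
  have hnorm : Normal K' (FR (n * N) L) := by
    have hal : Algebra.IsAlgebraic K' (FR (n * N) L) := ⟨fun x => (hint x).isAlgebraic⟩
    refine { hal with splits' := fun x => ?_ }
    have h2 : x ∈ IntermediateField.adjoin K' S := by rw [htop]; trivial
    exact IntermediateField.splits_of_mem_adjoin K' (FR (n * N) L) hS h2
  have hz : CharZero K' := charZero_of_injective_algebraMap (algebraMap k K').injective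
  exact { to_normal := hnorm, to_isSeparable := inferInstance }

/-- The elements fixed by the symmetric fibre power. -/
theorem mem_of_fixed (hρ : Coc α ρ) (hn : 0 < n) (K' : IntermediateField k (FR (n * N) L))
    (hK' : ∀ i, ∀ u ∈ TInv α ρ, eps L n N i u ∈ K') (w : FR (n * N) L)
    (hw : ∀ z : SymEP α n, ag (symProj α n) (rn n hρ) z w = w) : w ∈ K' := by
  have hgal := isGalois_gen hρ hn K' hK'
  have h1 : ∀ σ : FR (n * N) L ≃ₐ[K'] FR (n * N) L, σ w = w := by
    intro σ
    have h2 : ∀ i : Fin n, ∃ h : G, ∀ u, σ (eps L n N i u) = eps L n N i (ag α ρ h u) := by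
      intro i
      refine exists_g hρ ((σ : FR (n * N) L →+* FR (n * N) L).comp (eps L n N i)) (eps L n N i)
        fun u hu => ?_
      exact σ.commutes ⟨_, hK' i u hu⟩
    choose g hg using h2
    have h3 : ∀ i (a : L), algebraMap L (FR (n * N) L) (α (g i) a) =
        σ (algebraMap L (FR (n * N) L) a) := by
      intro i a
      have h4 := hg i (algebraMap L (FR N L) a)
      rw [eps_L, alg_FR L N, ag_alg, act_C, ← alg_FR L N, eps_L] at h4
      exact h4.symm
    have h4 : ∀ i, α (g i) = α (g ⟨0, hn⟩) := by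
      intro i
      apply AlgEquiv.ext
      intro a
      apply (algebraMap L (FR (n * N) L)).injective
      rw [h3, h3]
    let z : SymEP α n := ⟨(⟨g, 1⟩, α (g ⟨0, hn⟩)), fun i => h4 i⟩
    have h5 : ∀ x, σ x = ag (symProj α n) (rn n hρ) z x := by
      let S : Subfield (FR (n * N) L) := RingHom.eqLocusField
        (σ : FR (n * N) L →+* FR (n * N) L) (ag (symProj α n) (rn n hρ) z)
      have hS : S = ⊤ := eps_gen hn S fun i u => by
        change σ (eps L n N i u) = ag (symProj α n) (rn n hρ) z (eps L n N i u)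
        rw [ag_eps, hg]
        rfl
      intro x
      have hx : x ∈ S := by rw [hS]; trivial
      exact hx
    rw [h5, hw]
  obtain ⟨y, hy⟩ := (InfiniteGalois.mem_range_algebraMap_iff_fixed w).2 h1
  rw [← hy]
  exact y.2

end all

end Pool.Agent.H865.SP
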