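import Mathlib

/-!
# Uniqueness of the field of fractions of the tensor power of a field
-/

set_option autoImplicit false

namespace Pool.Agent.H865.SP

open scoped TensorProduct

section tens

variable {k F : Type} [Field k] [Field F] [Algebra k F] {n : ℕ}

/-- The map from the tensor power. -/
noncomputable def tmap {E : Type} [Field E] [Algebra k E] (e : Fin n → F →ₐ[k] E) :
    (⨂[k] _ : Fin n, F) →ₐ[k] E :=
  PiTensorProduct.liftAlgHom ((MultilinearMap.mkPiAlgebra k (Fin n) E).compLinearMap
    fun i => (e i).toLinearMap)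
    (by
      change ∏ i, e i 1 = 1
      simp only [map_one, Finset.prod_const_one])
    (fun x y => by
      change ∏ i, e i (x i * y i) = (∏ i, e i (x i)) * ∏ i, e i (y i)
      simp only [map_mul, Finset.prod_mul_distrib])

theorem tmap_tprod {E : Type} [Field E] [Algebra k E] (e : Fin n → F →ₐ[k] E) (x : Fin n → F) :
    tmap e (PiTensorProduct.tprod k x) = ∏ i, e i (x i) := by
  change PiTensorProduct.lift _ (PiTensorProduct.tprod k x) = _
  rw [PiTensorProduct.lift.tprod]
  rfl

theorem tmap_inj {E : Type} [Field E] [Algebra k E] (e : Fin n → F →ₐ[k] E)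
    (he : ∀ (ι : Type) (a : ι → F), LinearIndependent k a →
      LinearIndependent k fun f : Fin n → ι => ∏ i, e i (a (f i))) :
    Function.Injective (tmap e) := by
  let b := Module.Basis.ofVectorSpace k F
  let B := Basis.piTensorProduct fun _ : Fin n => b
  have h1 := he _ b b.linearIndependent
  have h2 : LinearIndependent k ((tmap e).toLinearMap ∘ B) := by
    have h3 : (tmap e).toLinearMap ∘ B = fun f => ∏ i, e i (b (f i)) := by
      funext f
      change tmap e (B f) = _
      rw [Basis.piTensorProduct_apply, tmap_tprod]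
    rw [h3]
    exact h1
  exact LinearMap.injective_of_linearIndependent (f := (tmap e).toLinearMap) B.span_eq h2

theorem exists_comp {E M : Type} [Field E] [Algebra k E] [Field M] [Algebra k M]
    (e : Fin n → F →ₐ[k] E) (e' : Fin n → F →ₐ[k] M)
    (he : ∀ (ι : Type) (a : ι → F), LinearIndependent k a →
      LinearIndependent k fun f : Fin n → ι => ∏ i, e i (a (f i)))
    (he' : ∀ (ι : Type) (a : ι → F), LinearIndependent k a →
      LinearIndependent k fun f : Fin n → ι => ∏ i, e' i (a (f i)))
    (hgen : IntermediateField.adjoin k (⋃ i, Set.range (e i)) = ⊤) :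
    ∃ Φ : E →ₐ[k] M, ∀ i x, Φ (e i x) = e' i x := by
  classical
  let T := ⨂[k] _ : Fin n, F
  have h1 := tmap_inj e he
  have h2 := tmap_inj e' he'
  let _ : Algebra T E := (tmap e).toRingHom.toAlgebra
  have halg : ∀ t : T, algebraMap T E t = tmap e t := fun t => rfl
  have hfs : FaithfulSMul T E := (faithfulSMul_iff_algebraMap_injective T E).2 h1
  have hdom : IsDomain T := Function.Injective.isDomain (tmap e).toRingHom h1
  have hmem : ∀ i x, ∃ t : T, tmap e t = e i x ∧ tmap e' t = e' i x := by
    intro i x
    refine ⟨PiTensorProduct.tprod k (Pi.mulSingle i x), ?_, ?_⟩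
    · rw [tmap_tprod, Finset.prod_eq_single i]
      · rw [Pi.mulSingle_eq_same]
      · intro j _ hj
        rw [Pi.mulSingle_eq_of_ne hj, map_one]
      · intro h
        exact absurd (Finset.mem_univ _) h
    · rw [tmap_tprod, Finset.prod_eq_single i]
      · rw [Pi.mulSingle_eq_same]
      · intro j _ hj
        rw [Pi.mulSingle_eq_of_ne hj, map_one]
      · intro h
        exact absurd (Finset.mem_univ _) h
  have hsurj : ∀ z : E, ∃ x y : T, z = algebraMap T E x / algebraMap T E y := by
    let S : Subfield E :=
      { carrier := {z | ∃ x y : T, z = algebraMap T E x / algebraMap T E y}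
        mul_mem' := by
          rintro _ _ ⟨x, y, rfl⟩ ⟨x', y', rfl⟩
          exact ⟨x * x', y * y', by rw [map_mul, map_mul, div_mul_div_comm]⟩
        one_mem' := ⟨1, 1, by rw [map_one, div_one]⟩
        add_mem' := by
          rintro _ _ ⟨x, y, rfl⟩ ⟨x', y', rfl⟩
          by_cases hy : algebraMap T E y = 0
          · exact ⟨x', y', by rw [hy, div_zero, zero_add]⟩
          · by_cases hy' : algebraMap T E y' = 0
            · exact ⟨x, y, by rw [hy', div_zero, add_zero]⟩
            · exact ⟨x * y' + y * x', y * y', by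
                rw [map_add, map_mul, map_mul, map_mul, div_add_div _ _ hy hy']⟩
        zero_mem' := ⟨0, 1, by rw [map_zero, zero_div]⟩
        neg_mem' := by
          rintro _ ⟨x, y, rfl⟩
          exact ⟨-x, y, by rw [map_neg, neg_div]⟩
        inv_mem' := by
          rintro _ ⟨x, y, rfl⟩
          exact ⟨y, x, by rw [inv_div]⟩ }
    intro z
    have h3 : z ∈ IntermediateField.adjoin k (⋃ i, Set.range (e i)) := by
      rw [hgen]
      trivial
    have h4 : (IntermediateField.adjoin k (⋃ i, Set.range (e i))).toSubfield ≤ S := by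
      change Subfield.closure _ ≤ S
      rw [Subfield.closure_le]
      rintro x (⟨a, rfl⟩ | hx)
      · exact ⟨algebraMap k T a, 1, by
          rw [map_one, div_one, halg, AlgHom.commutes]⟩
      · obtain ⟨i, y, rfl⟩ := Set.mem_iUnion.1 hx
        obtain ⟨t, ht, -⟩ := hmem i y
        exact ⟨t, 1, by rw [map_one, div_one, halg, ht]⟩
    exact h4 h3
  have hfrac : IsFractionRing T E := IsFractionRing.of_field T E hsurj
  let Φ : E →+* M := IsFractionRing.lift (A := T) (K := E) (g := (tmap e').toRingHom) h2
  have hΦ : ∀ t : T, Φ (tmap e t) = tmap e' t := fun t =>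
    IsFractionRing.lift_algebraMap (A := T) (K := E) (g := (tmap e').toRingHom) h2 t
  refine ⟨{ Φ with commutes' := fun a => ?_ }, fun i x => ?_⟩
  · have h3 := hΦ (algebraMap k T a)
    rw [AlgHom.commutes, AlgHom.commutes] at h3
    exact h3
  · obtain ⟨t, ht1, ht2⟩ := hmem i x
    have h3 := hΦ t
    rw [ht1, ht2] at h3
    exact h3

end tens

end Pool.Agent.H865.SP
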