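import Mathlib
import Pool.Agent.H865.SP.Defs
import Pool.Agent.H865.SP.Gal
import Pool.Agent.H865.SP.Tens
import Pool.Agent.H865.TQ.Main
import Pool.Graph.R_pool_sql_team_seeded_63374d34.N600.NS.Main
import Pool.Graph.R_seed8.TH59.WX.UH

/-!
# Symmetric powers of twisted linear quotients
-/

set_option autoImplicit false

open AlgebraicGeometry CategoryTheory
open W560.HP (toFF HilbertProperty)

namespace Pool.Agent.H865.SP

open MvPolynomial
open Pool.Agent.H865.TQ
open Pool.Agent.K3h17.HQ (FR FR_ext)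
open Pool.Agent.H391R2 (Wr wr_mul_left wr_mul_right wr_inv_left)
open Pool.Agent.H391R2.T4 (SymEP symProj RegSol WeakSol)
open Pool.Agent.R70.HC (HilbertPropertyIso)

section model

variable {k L : Type} [Field k] [CharZero k] [Field L] [Algebra k L] [FiniteDimensional k L]
  [IsGalois k L] {G : Type} [Group G] [Finite G] {α : G →* (L ≃ₐ[k] L)} {N : ℕ}
  {ρ : G → GL (Fin N) L} {n : ℕ}

/-- The field of symmetric elements is the field of invariants of the symmetric fibre power. -/
theorem field_sym (hα : Function.Surjective α) (hρ : Coc α ρ) (hn : 0 < n)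
    {F S E : Type} [Field F] [Field S] [Field E] [Algebra k F] [Algebra k S] [Algebra k E]
    (ε : F ≃ₐ[k] TInv α ρ) (e : Fin n → F →ₐ[k] E) (j : S →ₐ[k] E)
    (he : ∀ (ι : Type) (a : ι → F), LinearIndependent k a →
      LinearIndependent k fun f : Fin n → ι => ∏ i, e i (a (f i)))
    (hgen : IntermediateField.adjoin k (⋃ i, Set.range (e i)) = ⊤)
    (hj : ∀ z : E, z ∈ Set.range j ↔ ∀ (π : Equiv.Perm (Fin n)) (σ : E ≃ₐ[k] E),
      (∀ i x, σ (e i x) = e (π i) x) → σ z = z) :
    ∃ Φ : E →ₐ[k] FR (n * N) L, ∀ w, (∃ y, Φ (j y) = w) ↔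
      w ∈ TInv (symProj α n) (rn n hρ) := by
  let M := FR (n * N) L
  let e' : Fin n → F →ₐ[k] M := fun i =>
    { (eps L n N i).comp ((algebraMap (TInv α ρ) (FR N L)).comp (ε : F →+* TInv α ρ))
      with
      commutes' := fun a => by
        change eps L n N i ((ε (algebraMap k F a) : TInv α ρ) : FR N L) = _
        rw [AlgEquiv.commutes]
        exact eps_k k i a }
  have he'v : ∀ i x, e' i x = eps L n N i ((ε x : TInv α ρ) : FR N L) := fun i x => rfl
  have he' : ∀ (ι : Type) (a : ι → F), LinearIndependent k a →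
      LinearIndependent k fun f : Fin n → ι => ∏ i, e' i (a (f i)) := by
    intro ι a ha
    have h1 : LinearIndependent k fun i => ε (a i) :=
      ha.map' ε.toLinearMap (LinearMap.ker_eq_bot.2 ε.injective)
    have h2 := lin_k (n := n) hα _ h1
    have h3 : (fun f : Fin n → ι => ∏ i, e' i (a (f i))) =
        fun f : Fin n → ι => ∏ i, eps L n N i ((ε (a (f i)) : TInv α ρ) : FR N L) := by
      funext f
      exact Finset.prod_congr rfl fun i _ => he'v i _
    rw [h3]
    exact h2
  obtain ⟨Φ, hΦ⟩ := exists_comp e e' he he' hgen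
  have hΦi : Function.Injective Φ := Φ.toRingHom.injective
  -- the action preserves the image
  have hag : ∀ (z : SymEP α n) (i : Fin n) (x : F),
      ag (symProj α n) (rn n hρ) z (e' i x) = e' (z.1.1.right i) x := by
    intro z i x
    rw [he'v, ag_eps, he'v, (mem_TInv' ((ε x : TInv α ρ) : FR N L)).1 (ε x).2]
  have hk : ∀ (z : SymEP α n) (a : k), ag (symProj α n) (rn n hρ) z (algebraMap k M a) =
      algebraMap k M a := by
    intro z a
    rw [alg_FRk k (n * N), alg_FR L (n * N), ag_alg, act_C, AlgEquiv.commutes]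
  let A : SymEP α n → (M →ₐ[k] M) := fun z =>
    { ag (symProj α n) (rn n hρ) z with commutes' := hk z }
  have hA : ∀ z w, A z w = ag (symProj α n) (rn n hρ) z w := fun z w => rfl
  have hrange : ∀ z : SymEP α n, ∃ σ : E ≃ₐ[k] E, (∀ i x, σ (e i x) = e (z.1.1.right i) x) ∧
      ∀ y, Φ (σ y) = A z (Φ y) := by
    intro z
    have h1 : ∀ z : SymEP α n, ∀ y, (A z) (Φ y) ∈ Φ.fieldRange := by
      intro z y
      have h2 : y ∈ IntermediateField.adjoin k (⋃ i, Set.range (e i)) := by
        rw [hgen]
        trivial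
      have h3 : IntermediateField.adjoin k (⋃ i, Set.range (e i)) ≤
          Φ.fieldRange.comap ((A z).comp Φ) := by
        rw [IntermediateField.adjoin_le_iff]
        intro x hx
        obtain ⟨i, u, rfl⟩ := Set.mem_iUnion.1 hx
        refine ⟨e (z.1.1.right i) u, ?_⟩
        change Φ _ = A z (Φ (e i u))
        rw [hΦ, hΦ, hA, hag]
      exact h3 h2
    have h2 : ∀ z : SymEP α n, ∀ y, ∃ y', Φ y' = A z (Φ y) := fun z y => h1 z y
    choose s hs using h2
    have hs1 : ∀ z w y, s z (s w y) = s (z * w) y := by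
      intro z w y
      apply hΦi
      rw [hs, hs, hs, hA, hA, hA, ag_mul (coc_rn n hρ)]
    have hs2 : ∀ y, s 1 y = y := by
      intro y
      apply hΦi
      rw [hs, hA, ag_one (coc_rn n hρ)]
    let σ : E ≃ₐ[k] E :=
      { toFun := s z
        invFun := s z⁻¹
        left_inv := fun y => by rw [hs1, inv_mul_cancel, hs2]
        right_inv := fun y => by rw [hs1, mul_inv_cancel, hs2]
        map_mul' := fun x y => by
          apply hΦi
          rw [hs, map_mul, map_mul, map_mul, hs, hs]
        map_add' := fun x y => by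
          apply hΦi
          rw [hs, map_add, map_add, map_add, hs, hs]
        commutes' := fun a => by
          apply hΦi
          rw [hs, AlgHom.commutes, AlgHom.commutes] }
    refine ⟨σ, fun i x => ?_, fun y => hs z y⟩
    apply hΦi
    change Φ (s z (e i x)) = _
    rw [hs, hΦ, hΦ, hA, hag]
  refine ⟨Φ, fun w => ⟨?_, fun hw => ?_⟩⟩
  · rintro ⟨y, rfl⟩
    refine (mem_TInv' _).2 fun z => ?_
    obtain ⟨σ, hσ, hσ'⟩ := hrange z
    have h1 := (hj (j y)).1 ⟨y, rfl⟩ z.1.1.right σ hσ
    rw [← hA, ← hσ', h1]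
  · have hw1 := (mem_TInv' w).1 hw
    have h1 : w ∈ Φ.fieldRange := by
      refine mem_of_fixed hρ hn Φ.fieldRange (fun i u hu => ?_) w hw1
      refine ⟨e i (ε.symm ⟨u, hu⟩), ?_⟩
      change Φ _ = _
      rw [hΦ, he'v, AlgEquiv.apply_symm_apply]
    obtain ⟨z, rfl⟩ : ∃ z, Φ z = w := h1
    have h2 : z ∈ Set.range j := by
      rw [hj]
      intro π σ hσ
      let x : SymEP α n := ⟨(⟨1, π⟩, 1), fun i => map_one α⟩
      have h3 : ∀ y, Φ (σ y) = A x (Φ y) := by
        intro y
        have h2 : y ∈ IntermediateField.adjoin k (⋃ i, Set.range (e i)) := by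
          rw [hgen]
          trivial
        have h5 : IntermediateField.adjoin k (⋃ i, Set.range (e i)) ≤
            { RingHom.eqLocusField ((Φ.comp (σ : E →ₐ[k] E)) : E →+* M)
                (((A x).comp Φ : E →ₐ[k] M) : E →+* M) with
              algebraMap_mem' := fun a => by
                change Φ (σ (algebraMap k E a)) = A x (Φ (algebraMap k E a))
                rw [AlgEquiv.commutes, AlgHom.commutes, AlgHom.commutes] } := by
          rw [IntermediateField.adjoin_le_iff]
          intro y hy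
          obtain ⟨i, u, rfl⟩ := Set.mem_iUnion.1 hy
          change Φ (σ (e i u)) = A x (Φ (e i u))
          rw [hσ, hΦ, hΦ, hA, hag]
        exact h5 h2
      apply hΦi
      rw [h3]
      exact hw1 x
    obtain ⟨y, rfl⟩ := h2
    exact ⟨y, rfl⟩

/-- A model of the symmetric power is a model of the quotient by the symmetric fibre power. -/
theorem model_sym (hα : Function.Surjective α) (hρ : Coc α ρ) (hn : 0 < n)
    {X : Scheme.{0}} [IsIntegral X] {p : X ⟶ Spec (CommRingCat.of k)}
    (hX : IsQuotientModel k α ρ X p) {Z : Scheme.{0}} [IsIntegral Z]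
    {q : Z ⟶ Spec (CommRingCat.of k)} (hZ : IsSymmetricPower k n X p Z q) :
    IsQuotientModel k (symProj α n) (rn n hρ) Z q := by
  obtain ⟨ε, hε⟩ := exists_equiv hX
  obtain ⟨E, i1, i2, e, j, he, hgen, hj⟩ := hZ
  let _ : Algebra k X.functionField := (toFF k X p).toAlgebra
  let _ : Algebra k Z.functionField := (toFF k Z q).toAlgebra
  let ε' : X.functionField ≃ₐ[k] TInv α ρ := AlgEquiv.ofRingEquiv (f := ε) hε
  obtain ⟨Φ, hΦ⟩ := field_sym hα hρ hn ε' e j he hgen hj
  refine ⟨(Φ : E →+* FR (n * N) L).comp (j : Z.functionField →+* E), fun a => ?_, ?_⟩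
  · change Φ (j (algebraMap k Z.functionField a)) = _
    rw [AlgHom.commutes, AlgHom.commutes]
    exact (alg_FRk k (n * N) a).trans (alg_FR L (n * N) _)
  · ext w
    constructor
    · rintro ⟨y, rfl⟩
      exact (isInv_iff _).2 ((hΦ _).1 ⟨y, rfl⟩)
    · intro hw
      obtain ⟨y, hy⟩ := (hΦ w).2 ((isInv_iff w).1 hw)
      exact ⟨y, hy⟩

end model

end Pool.Agent.H865.SP
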