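import Mathlib
import Pool.Agent.H865.SP.Main

/-!
# Symmetric powers of twisted linear quotients: the final theorems
-/

set_option autoImplicit false

open AlgebraicGeometry CategoryTheory
open W560.HP (toFF HilbertProperty)

namespace Pool.Agent.H865.SP

open Pool.Agent.H865.TQ
open Pool.Agent.H391R2.T4 (SymEP symProj RegSol WeakSol SolOver regSol_iff finite_wr)
open Pool.Agent.R70.HC (HilbertPropertyIso)
open Pool.Agent.N600.NS (IdxDvd index_main uniform_main Degs WeakOver)

theorem weak_iff (k L G : Type) [Field k] [Field L] [Algebra k L] [FiniteDimensional k L]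
    [IsGalois k L] [Group G] (α : G →* (L ≃ₐ[k] L)) :
    WeaklySolvable k L G α ↔ WeakSol k L G α := by
  constructor
  · rintro ⟨F, i1, i2, i3, i4, i5, i6, η, hη⟩
    refine ⟨F, i1, i2, i5, i6, i3, i4, η, fun σ => ?_⟩
    apply AlgEquiv.ext
    intro x
    apply (algebraMap L F).injective
    rw [AlgEquiv.restrictNormal_commutes, hη]
  · rintro ⟨F, i1, i2, i5, i6, i3, i4, η, hη⟩
    refine ⟨F, i1, i2, i3, i4, i5, i6, η, fun σ x => ?_⟩
    rw [hη, AlgEquiv.restrictNormal_commutes]

theorem idx_iff (k L G : Type) [Field k] [Field L] [Algebra k L] [Group G]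
    (α : G →* (L ≃ₐ[k] L)) (n : ℕ) : IndexDivides k L G α n ↔ IdxDvd k L G α n := by
  constructor
  · intro h d hd
    refine h d fun k' _ _ _ hw => hd _ ⟨k', inferInstance, inferInstance, inferInstance, rfl, hw⟩
  · intro h d hd
    refine h d ?_
    rintro m ⟨k', i1, i2, i3, rfl, hw⟩
    exact hd k' hw

section final

variable (k : Type) [Field k] [CharZero k] (hK : IsHilbertian k) (L : Type) [Field L]
  [Algebra k L] [FiniteDimensional k L] [IsGalois k L] (G : Type) [Group G] [Finite G]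
  (α : G →* (L ≃ₐ[k] L)) (hα : Function.Surjective α) (N : ℕ) (ρ : G → GL (Fin N) L)
  (hρ : IsSemilinear α ρ)
  (X : Scheme.{0}) [IsIntegral X] (p : X ⟶ Spec (CommRingCat.of k))
  (hX : IsQuotientModel k α ρ X p) {n : ℕ} (hn : 0 < n)
  (Z : Scheme.{0}) [IsIntegral Z] (q : Z ⟶ Spec (CommRingCat.of k))
  [LocallyOfFiniteType q] (hZ : IsSymmetricPower k n X p Z q)

include hK hα hρ hX hn hZ

theorem hp_sym (hreg : RegSol k L (SymEP α n) (symProj α n)) :
    HilbertProperty k Z q ∧
      ((∀ x : Z, IsIntegrallyClosed (Z.presheaf.stalk x)) → HilbertPropertyIso k Z q) := by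
  have hW : Finite (Pool.Agent.H391R2.Wr G n) := finite_wr G n
  have hfree : FreeT k L (symProj α n) :=
    free_of_reg k L (SymEP α n) hK (symProj α n) hreg
  exact hp_of_free k hK L (SymEP α n) (symProj α n) hfree (n * N) (rn n hρ) (coc_rn n hρ) Z q
    (model_sym hα hρ hn hX hZ)

theorem tfae_sym (hf : IsFaithful α ρ) (hN : 0 < N)
    (h1 : RegSol k L (SymEP α n) (symProj α n) ↔ IdxDvd k L G α n)
    (h2 : WeakSol k L (SymEP α n) (symProj α n) ↔ IdxDvd k L G α n) :
    [HilbertProperty k Z q, DensePoints k Z q, IsUnirational k Z q,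
      IndexDivides k L G α n].TFAE := by
  have hW : Finite (Pool.Agent.H391R2.Wr G n) := finite_wr G n
  have h3 := tfae_dense k hK L (SymEP α n) (symProj α n) (n * N) (rn n hρ) (coc_rn n hρ)
    (faithful_rn n hρ hf hN) Z q (model_sym hα hρ hn hX hZ)
  tfae_have 1 → 2 := dense_of_hp
  tfae_have 2 ↔ 3 := h3.out 0 1
  tfae_have 2 → 4 := fun h => (idx_iff k L G α n).2 (h2.1 ((weak_iff _ _ _ _).1 ((h3.out 0 2).1 h)))
  tfae_have 4 → 1 := fun h => (hp_sym k hK L G α hα N ρ hρ X p hX hn Z q hZ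
    (h1.2 ((idx_iff k L G α n).1 h))).1
  tfae_finish

end final

end Pool.Agent.H865.SP
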